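import Pool.Agent.W845.Final

/-!
# Random walk among mobile traps in dimension three: the invariance principle fails

Let `X` be a continuous time simple symmetric random walk on `ℤ^3` (jump rate `κ`) among a Poisson
system of independent moving traps (density `ν > 0`, jump rate `ρ > 0`), killed at rate `γ > 0` per
trap at its site, and let `P_{γ,t}` be the annealed path measure. We prove that for no `σ > 0` the
rescaled path `(X_{ut} / √t)_{0 ≤ u ≤ 1}` converges weakly under `P_{γ,t}`, as `t → ∞`, in the
Skorokhod space, to `(σ B_u)_{0 ≤ u ≤ 1}`.

Idea of the proof. Averaging over the traps, a path `x` has weight `exp (-ν C(x))`, where `C(x)` is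
the expected number (density one) of traps which kill. Splitting at time `t / 2` one gets
`C(x) = F₋ + F₊ - Q(x)`, where `Q(x)` is the sum over the sites `z` of the product of the
probabilities that a trap which is at `z` at time `t / 2` kills before, respectively after, `t / 2`.
The point reflection of the second half of the path about `X_{t/2}` preserves the law of `X` and
`F₋`, `F₊`. On the event that the path stays near `0` until shortly before `t / 2`, and near
`2 K √t e₀` from shortly after `t / 2` on, with `X_{t/2}` near `K √t e₀`, the reflection increases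
`Q` by at least `c √t` in dimension three, for suitable `K`. Hence this event has
`P_{γ,t}`-probability at most `exp (-ν c √t)`, while the corresponding event for `σ B` has
positive probability.
-/

set_option autoImplicit false

namespace Pool.Agent.Results.MP_f8dce5_pr.NotDiffusive

open MeasureTheory ProbabilityTheory Filter Topology
open scoped ENNReal NNReal
open Pool.Agent.W845.Traps

universe u v

/-- In dimension three, for every choice of the jump rates `κ ≥ 0` and `ρ > 0`, of the density
`ν > 0` and of the killing rate `γ > 0`, the walk is not diffusive under the annealed path measure: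
no `σ > 0` makes the invariance principle hold. -/
theorem result {Ω : Type u} [MeasurableSpace Ω] {P : Measure Ω} {κ ρ ν γ : ℝ≥0}
    (hρ : 0 < ρ) (hν : 0 < ν) (hγ : 0 < γ)
    {X : ℝ≥0 → Ω → Fin 3 → ℤ} {N : (Fin 3 → ℤ) → Ω → ℕ}
    {Y : (Fin 3 → ℤ) → ℕ → ℝ≥0 → Ω → Fin 3 → ℤ} (hT : TrapModel P κ ρ ν X N Y)
    {Ω' : Type v} [MeasurableSpace Ω'] {P' : Measure Ω'} {B : Fin 3 → ℝ≥0 → Ω' → ℝ}
    (hB : IsStdBrownian P' B) :
    ¬ ∃ σ : ℝ, 0 < σ ∧ ConvergesToBrownian (fun t => pathMeasure P γ X N Y t) X P' B σ := by
  rintro ⟨σ, hσ, h⟩
  exact not_converges hρ hν hγ hT hB hσ h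

end Pool.Agent.Results.MP_f8dce5_pr.NotDiffusive
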